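import Mathlib

/-!
# Restrictions of cuspidal functions: the regular unipotent class of `PGL_2` over `F_q`, `q ≡ 1 (4)`

For every finite field `F` with `q ≡ 1 (mod 4)` elements, the split semisimple group `PGL_2` over `F`
and its regular unipotent conjugacy class `O`, the space `S_cusp(Ō)` of the restrictions to `Ō` of the
cuspidal functions on `PGL_2(F)` is different from `S_w(Ō)`.

The reason: let `η` be the character `g ↦ (det g / F)` (quadratic residue symbol) of `PGL_2(F)` and
let `h` be the function on `PGL_2(F)`, supported on the regular unipotent elements, with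
`h (x g x⁻¹) = η(x) h(g)`. Then `h` lies in `S_w(Ō)`, and `h` is orthogonal to all cuspidal functions:
up to a scalar `h` is the only function with this transformation law, and for `q ≡ 1 (mod 4)` it is not
cuspidal, because its sum over the coset `w U₀` is `2 h(u) ≠ 0`.
-/

open Matrix
open scoped MatrixGroups

namespace Pool.Agent.Results.MP_21a573_al.PGL2RegularUnipotent

/-! ## The definitions -/

section Defs

variable (F : Type) [Field F]

/-- The inclusion `PGL_2(F) → PGL_2(F̄)`, `F̄` the algebraic closure of `F`. -/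
noncomputable def toBar : PGL(2, F) →* PGL(2, AlgebraicClosure F) :=
  QuotientGroup.lift (Subgroup.center (GL (Fin 2) F))
    (ProjGenLinGroup.mk.comp (GeneralLinearGroup.map (algebraMap F (AlgebraicClosure F))))
    (by
      intro A hA
      rw [Matrix.GeneralLinearGroup.center_eq_range_scalar] at hA
      obtain ⟨u, rfl⟩ := hA
      rw [MonoidHom.mem_ker, MonoidHom.comp_apply, ProjGenLinGroup.mk_eq_one,
        Matrix.GeneralLinearGroup.center_eq_range_scalar]
      refine ⟨Units.map (algebraMap F (AlgebraicClosure F)).toMonoidHom u, ?_⟩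
      ext i j
      fin_cases i <;> fin_cases j <;> simp [Matrix.scalar_apply])

/-- The class of an invertible matrix in `PGL_2`. -/
noncomputable abbrev cls {L : Type} [Field L] (A : GL (Fin 2) L) : PGL(2, L) :=
  ProjGenLinGroup.mk A

/-- The Zariski closure, inside `PGL_2` over the field `L`, of a set `S` of points of `PGL_2(L)`. The
variety `PGL_2` is the open subset `det ≠ 0` of the projective space of `2 × 2` matrices, so the
closure of `S` consists of the common zeros of the homogeneous polynomials in the four matrix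
entries which vanish on `S`. -/
def zariskiClosure {L : Type} [Field L] (S : Set PGL(2, L)) : Set PGL(2, L) :=
  {y | ∀ (d : ℕ) (P : MvPolynomial (Fin 2 × Fin 2) L), P.IsHomogeneous d →
    (∀ A : GL (Fin 2) L, cls A ∈ S → MvPolynomial.eval (fun ij => A.1 ij.1 ij.2) P = 0) →
    ∀ A : GL (Fin 2) L, cls A = y → MvPolynomial.eval (fun ij => A.1 ij.1 ij.2) P = 0}

/-- `Ō`: the set of the `F`-points of the Zariski closure of the conjugacy class `O` of the element
`x` of `PGL_2(F̄)`. -/
def Obar (x : PGL(2, AlgebraicClosure F)) : Set PGL(2, F) :=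
  {g | toBar F g ∈ zariskiClosure (conjugatesOf x)}

/-- The upper unitriangular matrix with upper right entry `t`. -/
def upper {L : Type} [Field L] (t : L) : GL (Fin 2) L where
  val := !![1, t; 0, 1]
  inv := !![1, -t; 0, 1]
  val_inv := by ext i j; fin_cases i <;> fin_cases j <;> simp [Matrix.mul_apply]
  inv_val := by ext i j; fin_cases i <;> fin_cases j <;> simp [Matrix.mul_apply]

/-- The (`F`-points of the) unipotent radicals of the proper parabolic subgroups of `PGL_2` defined
over `F`: all proper parabolic subgroups are Borel subgroups, and these sets are the conjugates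
`x U₀ x⁻¹`, `x ∈ PGL_2(F)`, of the group `U₀` of the classes of the upper unitriangular matrices. -/
def UnipRad : Set (Set PGL(2, F)) :=
  {U | ∃ x : PGL(2, F), U = Set.range fun t : F => x * cls (upper t) * x⁻¹}

/-- A function `f` on `PGL_2(F)` is cuspidal if `∑_{u ∈ U} f (g u) = 0` for all `g` and `U`. -/
def Cuspidal (f : PGL(2, F) → ℂ) : Prop :=
  ∀ U ∈ UnipRad F, ∀ g : PGL(2, F), ∑ᶠ u : U, f (g * u.1) = 0

/-- `S_cusp(Ō)`: the restrictions to `Ō` of the cuspidal functions. -/
def Scusp (x : PGL(2, AlgebraicClosure F)) : Set (Obar F x → ℂ) :=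
  {f | ∃ Φ : PGL(2, F) → ℂ, Cuspidal F Φ ∧ ∀ z : Obar F x, f z = Φ z.1}

/-- `S_w(Ō)`: the functions `f` on `Ō` with `∑_{u ∈ U} f (g u) = 0` for all `(g, U)` with
`g U ⊆ Ō`. -/
def Sw (x : PGL(2, AlgebraicClosure F)) : Set (Obar F x → ℂ) :=
  {f | ∀ U ∈ UnipRad F, ∀ (g : PGL(2, F)) (h : ∀ u ∈ U, g * u ∈ Obar F x),
    ∑ᶠ u : U, f ⟨g * u.1, h u.1 u.2⟩ = 0}

end Defs

/-! ## The proof -/

section Proof

variable {F : Type} [Field F]

lemma toBar_cls (A : GL (Fin 2) F) :
    toBar F (cls A) = cls (GeneralLinearGroup.map (algebraMap F (AlgebraicClosure F)) A) := rfl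

lemma cls_eq_iff {L : Type} [Field L] {A B : GL (Fin 2) L} :
    cls A = cls B ↔ ∃ c : L, c ≠ 0 ∧ B.1 = c • A.1 := by
  rw [ProjGenLinGroup.mk_eq_mk_iff]
  constructor
  · rintro ⟨u, rfl⟩
    refine ⟨u, u.ne_zero, ?_⟩
    ext i j
    fin_cases i <;> fin_cases j <;>
      simp [Matrix.mul_apply, Matrix.scalar_apply, Fin.sum_univ_two, mul_comm]
  · rintro ⟨c, hc, h⟩
    refine ⟨Units.mk0 c hc, ?_⟩
    ext i j
    rw [h]
    fin_cases i <;> fin_cases j <;>
      simp [Matrix.mul_apply, Matrix.scalar_apply, Fin.sum_univ_two, mul_comm]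

/-- `tr² = 4 det` for all the representatives. -/
def Q (g : PGL(2, F)) : Prop := ∀ A : GL (Fin 2) F, cls A = g → A.1.trace ^ 2 = 4 * A.1.det

lemma Q_conj {g : PGL(2, F)} (y : PGL(2, F)) (h : Q g) : Q (y * g * y⁻¹) := by
  intro A hA
  induction y using Matrix.ProjGenLinGroup.induction_on with | mk Y =>
  have h1 : cls (Y⁻¹ * A * Y) = g := by
    have : cls A = cls Y * g * (cls Y)⁻¹ := hA
    show ProjGenLinGroup.mk (Y⁻¹ * A * Y) = g
    rw [map_mul, map_mul, map_inv]
    show (cls Y)⁻¹ * cls A * cls Y = g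
    rw [this]
    group
  have h2 := h _ h1
  have e1 : (Y⁻¹ * A * Y).1.trace = A.1.trace := by
    rw [Units.val_mul, Units.val_mul, Matrix.trace_mul_comm, ← mul_assoc, ← Units.val_mul,
      mul_inv_cancel, Units.val_one, one_mul]
  have e2 : (Y⁻¹ * A * Y).1.det = A.1.det := by
    rw [Units.val_mul, Units.val_mul, Matrix.det_mul, Matrix.det_mul, mul_comm, ← mul_assoc,
      ← Matrix.det_mul, ← Units.val_mul, mul_inv_cancel, Units.val_one, Matrix.det_one, one_mul]
  rw [e1, e2] at h2
  exact h2

lemma Q_of_mem {g : PGL(2, F)} (hg : g ∈ Obar F (cls (upper 1))) : Q g := by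
  intro A hA
  have h := hg 2 ((MvPolynomial.X (0, 0) + MvPolynomial.X (1, 1)) ^ 2 -
    4 * (MvPolynomial.X (0, 0) * MvPolynomial.X (1, 1) -
      MvPolynomial.X (0, 1) * MvPolynomial.X (1, 0))) ?_ ?_
    (GeneralLinearGroup.map (algebraMap F (AlgebraicClosure F)) A) ?_
  · simp only [map_sub, map_pow, map_add, map_mul, MvPolynomial.eval_X, map_ofNat] at h
    apply (algebraMap F (AlgebraicClosure F)).injective
    rw [Matrix.trace_fin_two, Matrix.det_fin_two]
    simp only [map_pow, map_add, map_mul, map_sub, map_ofNat]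
    simp only [GeneralLinearGroup.map_apply] at h
    linear_combination h
  · have hX : ∀ p : Fin 2 × Fin 2,
        (MvPolynomial.X p : MvPolynomial (Fin 2 × Fin 2) (AlgebraicClosure F)).IsHomogeneous 1 :=
      fun p => MvPolynomial.isHomogeneous_X _ _
    have h4 : ((4 : MvPolynomial (Fin 2 × Fin 2) (AlgebraicClosure F))).IsHomogeneous 0 := by
      have : (4 : MvPolynomial (Fin 2 × Fin 2) (AlgebraicClosure F)) = MvPolynomial.C 4 :=
        (map_ofNat MvPolynomial.C 4).symm
      rw [this]
      exact MvPolynomial.isHomogeneous_C _ _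
    refine MvPolynomial.IsHomogeneous.sub ?_ ?_
    · exact ((hX _).add (hX _)).pow 2
    · exact h4.mul (((hX _).mul (hX _)).sub ((hX _).mul (hX _)))
  · intro B hB
    rw [conjugatesOf, Set.mem_ofPred_eq, isConj_iff] at hB
    obtain ⟨y, hy⟩ := hB
    induction y using Matrix.ProjGenLinGroup.induction_on with | mk Y =>
    have h1 : cls (Y * upper 1 * Y⁻¹) = cls B := by
      show ProjGenLinGroup.mk (Y * upper 1 * Y⁻¹) = _
      rw [map_mul, map_mul, map_inv]
      exact hy
    obtain ⟨c, hc, hB⟩ := cls_eq_iff.1 h1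
    have e1 : (Y * upper 1 * Y⁻¹).1.trace = 2 := by
      rw [Units.val_mul, Matrix.trace_mul_comm, ← Units.val_mul, ← mul_assoc, inv_mul_cancel,
        one_mul]
      simp [upper, Matrix.trace_fin_two]
      norm_num
    have e2 : (Y * upper 1 * Y⁻¹).1.det = 1 := by
      rw [Units.val_mul, Units.val_mul, Matrix.det_mul, Matrix.det_mul, mul_comm, ← mul_assoc,
        ← Matrix.det_mul, ← Units.val_mul, inv_mul_cancel, Units.val_one, Matrix.det_one, one_mul]
      simp [upper, Matrix.det_fin_two]
    have e3 : B.1.trace ^ 2 = 4 * B.1.det := by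
      rw [hB, Matrix.trace_smul, Matrix.det_smul, e1, e2]
      simp
      ring
    rw [Matrix.trace_fin_two, Matrix.det_fin_two] at e3
    simp only [map_sub, map_pow, map_add, map_mul, MvPolynomial.eval_X, map_ofNat]
    linear_combination e3
  · rw [← toBar_cls, hA]

lemma conj_mem (x : PGL(2, F)) :
    x * cls (upper 1) * x⁻¹ ∈ Obar F (cls (upper 1)) := by
  intro d P hP h A hA
  apply h
  rw [hA, map_mul, map_mul, map_inv, conjugatesOf, Set.mem_ofPred_eq, isConj_iff]
  refine ⟨toBar F x, ?_⟩
  congr 2
  rw [toBar_cls]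
  congr 1
  ext i j
  fin_cases i <;> fin_cases j <;> simp [upper]

lemma upper_mul {L : Type} [Field L] (s t : L) : upper s * upper t = upper (s + t) := by
  ext i j
  fin_cases i <;> fin_cases j <;> simp [upper, Matrix.mul_apply, Fin.sum_univ_two, add_comm]

lemma upper_mul_val {L : Type} [Field L] (t : L) (A : GL (Fin 2) L) : (upper t * A).1 =
    !![A.1 0 0 + t * A.1 1 0, A.1 0 1 + t * A.1 1 1; A.1 1 0, A.1 1 1] := by
  ext i j
  rw [Units.val_mul, Matrix.mul_apply, Fin.sum_univ_two]
  fin_cases i <;> fin_cases j <;> simp [upper]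

lemma mul_upper_val {L : Type} [Field L] (t : L) (A : GL (Fin 2) L) : (A * upper t).1 =
    !![A.1 0 0, t * A.1 0 0 + A.1 0 1; A.1 1 0, t * A.1 1 0 + A.1 1 1] := by
  ext i j
  rw [Units.val_mul, Matrix.mul_apply, Fin.sum_univ_two]
  fin_cases i <;> fin_cases j <;> simp [upper, mul_comm]

lemma upper_inj {s t : F} (h : cls (upper s) = cls (upper t)) : s = t := by
  obtain ⟨c, -, hc⟩ := cls_eq_iff.1 h
  have h0 := congrFun (congrFun hc 0) 0
  have h1 := congrFun (congrFun hc 0) 1
  simp [upper] at h0 h1
  rw [h1, ← h0, one_mul]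

variable [Fintype F]

instance : Finite PGL(2, F) := inferInstanceAs (Finite (GL (Fin 2) F ⧸ _))

noncomputable instance : Fintype PGL(2, F) := Fintype.ofFinite _

open Classical in
/-- The character `η(g) = (det g / F)`. -/
noncomputable def eta : PGL(2, F) →* ℤ :=
  QuotientGroup.lift (Subgroup.center (GL (Fin 2) F))
    ((quadraticChar F).toMonoidHom.comp ((Units.coeHom F).comp GeneralLinearGroup.det))
    (by
      intro A hA
      rw [Matrix.GeneralLinearGroup.center_eq_range_scalar] at hA
      obtain ⟨u, rfl⟩ := hA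
      rw [MonoidHom.mem_ker, MonoidHom.comp_apply, MonoidHom.comp_apply,
        GeneralLinearGroup.det_scalar]
      show quadraticChar F ((u ^ Fintype.card (Fin 2) : Fˣ) : F) = 1
      rw [Fintype.card_fin, Units.val_pow_eq_pow_val]
      exact quadraticChar_sq_one' u.ne_zero)

open Classical in
lemma eta_cls (A : GL (Fin 2) F) : eta (cls A) = quadraticChar F A.1.det := rfl

lemma eta_sq (x : PGL(2, F)) : eta x * eta x = 1 := by
  classical
  induction x using Matrix.ProjGenLinGroup.induction_on with | mk A =>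
  show eta (cls A) * eta (cls A) = 1
  rw [eta_cls, ← map_mul, ← sq]
  apply quadraticChar_sq_one'
  have := (GeneralLinearGroup.det A).ne_zero
  simpa using this

lemma eta_inv (x : PGL(2, F)) : eta x⁻¹ = eta x := by
  have h : eta x⁻¹ * eta x = 1 := by rw [← map_mul, inv_mul_cancel, map_one]
  calc eta x⁻¹ = eta x⁻¹ * (eta x * eta x) := by rw [eta_sq, mul_one]
    _ = eta x := by rw [← mul_assoc, h, one_mul]

/-- the `η`-average of the conjugates -/
noncomputable def T (Φ : PGL(2, F) → ℂ) (g : PGL(2, F)) : ℂ :=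
  ∑ x : PGL(2, F), (eta x : ℂ) * Φ (x * g * x⁻¹)

lemma T_conj (Φ : PGL(2, F) → ℂ) (g y : PGL(2, F)) : T Φ (y * g * y⁻¹) = eta y * T Φ g := by
  unfold T
  rw [Finset.mul_sum]
  refine Fintype.sum_equiv (Equiv.mulRight y) _ _ fun x => ?_
  rw [Equiv.coe_mulRight, map_mul]
  have h : ((eta y : ℤ) : ℂ) * (eta y : ℤ) = 1 := by exact_mod_cast eta_sq y
  have e : x * (y * g * y⁻¹) * x⁻¹ = x * y * g * (x * y)⁻¹ := by group
  rw [e]
  push_cast
  linear_combination (-(eta x : ℂ) * Φ (x * y * g * (x * y)⁻¹)) * h

lemma T_zero_of_comm (Φ : PGL(2, F) → ℂ) {g y : PGL(2, F)} (h : y * g = g * y)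
    (hy : eta y = -1) : T Φ g = 0 := by
  have h1 := T_conj Φ g y
  rw [h, mul_inv_cancel_right, hy] at h1
  push_cast at h1
  linear_combination h1 / 2

lemma T_sum {Φ : PGL(2, F) → ℂ} (hΦ : Cuspidal F Φ) (g : PGL(2, F)) :
    ∑ t : F, T Φ (g * cls (upper t)) = 0 := by
  unfold T
  rw [Finset.sum_comm]
  refine Finset.sum_eq_zero fun x _ => ?_
  rw [← Finset.mul_sum]
  have h := hΦ _ ⟨x, rfl⟩ (x * g * x⁻¹)
  have hinj : Function.Injective fun t : F => x * cls (upper t) * x⁻¹ := by
    intro s t hst
    apply upper_inj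
    simpa using hst
  rw [← finsum_comp_equiv (Equiv.ofInjective _ hinj), finsum_eq_sum_of_fintype] at h
  simp only [Equiv.ofInjective_apply] at h
  rw [mul_eq_zero]
  right
  rw [← h]
  refine Finset.sum_congr rfl fun t _ => ?_
  congr 1
  group

/-- the function `h` -/
noncomputable def hh (g : PGL(2, F)) : ℂ :=
  open Classical in T (fun z => if z = g then 1 else 0) (cls (upper 1))

open Classical in
lemma hh_eq (g : PGL(2, F)) :
    hh g = ∑ x : PGL(2, F), (eta x : ℂ) * (if x * cls (upper 1) * x⁻¹ = g then 1 else 0) := by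
  unfold hh T
  refine Finset.sum_congr rfl fun x _ => ?_
  congr

lemma hh_conj (g y : PGL(2, F)) : hh (y * g * y⁻¹) = eta y * hh g := by
  classical
  rw [hh_eq, hh_eq, Finset.mul_sum]
  refine Fintype.sum_equiv (Equiv.mulLeft y⁻¹) _ _ fun x => ?_
  rw [Equiv.coe_mulLeft, map_mul, eta_inv]
  have h : ((eta y : ℤ) : ℂ) * (eta y : ℤ) = 1 := by exact_mod_cast eta_sq y
  have e : (x * cls (upper 1) * x⁻¹ = y * g * y⁻¹) ↔
      (y⁻¹ * x * cls (upper 1) * (y⁻¹ * x)⁻¹ = g) := by
    constructor
    · intro h
      have : y⁻¹ * x * cls (upper 1) * (y⁻¹ * x)⁻¹ = y⁻¹ * (x * cls (upper 1) * x⁻¹) * y := by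
        group
      rw [this, h]
      group
    · intro h
      rw [← h]
      group
  simp only [e]
  push_cast
  linear_combination (-(eta x : ℂ) *
    (if y⁻¹ * x * cls (upper 1) * (y⁻¹ * x)⁻¹ = g then (1 : ℂ) else 0)) * h

lemma hh_one_ne : hh (cls (upper (1 : F))) ≠ 0 := by
  classical
  rw [hh_eq]
  have key : ∀ x : PGL(2, F), (eta x : ℂ) *
      (if x * cls (upper 1) * x⁻¹ = cls (upper (1 : F)) then (1 : ℂ) else 0) =
      if x * cls (upper 1) * x⁻¹ = cls (upper (1 : F)) then (1 : ℂ) else 0 := by
    intro x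
    split_ifs with hx
    · rw [mul_one]
      have hx' : cls (upper 1) * x = x * cls (upper (1 : F)) := by
        rw [mul_inv_eq_iff_eq_mul] at hx
        exact hx.symm
      induction x using Matrix.ProjGenLinGroup.induction_on with | mk A =>
      have h1 : cls (upper 1 * A) = cls (A * upper (1 : F)) := by
        show ProjGenLinGroup.mk (upper 1 * A) = ProjGenLinGroup.mk (A * upper (1 : F))
        rw [map_mul, map_mul]
        exact hx'
      obtain ⟨c, hc, h⟩ := cls_eq_iff.1 h1
      have h00 := congrFun (congrFun h 0) 0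
      have h01 := congrFun (congrFun h 0) 1
      have h10 := congrFun (congrFun h 1) 0
      have h11 := congrFun (congrFun h 1) 1
      rw [upper_mul_val, mul_upper_val] at h00 h01 h10 h11
      simp at h00 h01 h10 h11
      have hdet : A.1 0 0 * A.1 1 1 - A.1 0 1 * A.1 1 0 ≠ 0 := by
        have := (GeneralLinearGroup.det A).ne_zero
        rw [← Matrix.det_fin_two]
        simpa using this
      have e10 : A.1 1 0 = 0 := by
        by_contra h0
        have hc1 : c = 1 := by
          have := h10
          have h' : (c - 1) * A.1 1 0 = 0 := by linear_combination -this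
          rcases mul_eq_zero.1 h' with h'' | h''
          · linear_combination h''
          · exact absurd h'' h0
        apply h0
        rw [hc1] at h00
        linear_combination -h00
      have e00 : A.1 0 0 ≠ 0 := by
        intro h0
        apply hdet
        rw [h0, e10]
        ring
      have hc1 : c = 1 := by
        rw [e10] at h00
        have h' : (c - 1) * A.1 0 0 = 0 := by linear_combination -h00
        rcases mul_eq_zero.1 h' with h'' | h''
        · linear_combination h''
        · exact absurd h'' e00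
      have e11 : A.1 1 1 = A.1 0 0 := by
        rw [hc1] at h01
        linear_combination -h01
      have : eta (ProjGenLinGroup.mk A) = 1 := by
        show eta (cls A) = 1
        rw [eta_cls, Matrix.det_fin_two, e10, e11]
        have : A.1 0 0 * A.1 0 0 - A.1 0 1 * 0 = A.1 0 0 ^ 2 := by ring
        rw [this]
        exact quadraticChar_sq_one' e00
      rw [this]
      norm_num
    · rw [mul_zero]
  rw [Finset.sum_congr rfl fun x _ => key x, Finset.sum_boole]
  have : (0 : ℕ) < (Finset.univ.filter fun x : PGL(2, F) =>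
      x * cls (upper 1) * x⁻¹ = cls (upper (1 : F))).card := by
    rw [Finset.card_pos]
    exact ⟨1, by simp⟩
  exact_mod_cast this.ne'

/-- the diagonal matrix `diag(ν, 1)` -/
def dg (ν : F) (hν : ν ≠ 0) : GL (Fin 2) F where
  val := !![ν, 0; 0, 1]
  inv := !![ν⁻¹, 0; 0, 1]
  val_inv := by ext i j; fin_cases i <;> fin_cases j <;> simp [Matrix.mul_apply, hν]
  inv_val := by ext i j; fin_cases i <;> fin_cases j <;> simp [Matrix.mul_apply, hν]

omit [Fintype F] in
lemma dg_conj (ν : F) (hν : ν ≠ 0) (t : F) :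
    dg ν hν * upper t * (dg ν hν)⁻¹ = upper (ν * t) := by
  rw [mul_inv_eq_iff_eq_mul]
  ext i j
  fin_cases i <;> fin_cases j <;>
    simp [dg, upper, Matrix.mul_apply, Fin.sum_univ_two]

lemma hh_sum_zero (hF : ringChar F ≠ 2) : ∑ t : F, hh (cls (upper t)) = 0 := by
  classical
  obtain ⟨ν, hν⟩ := quadraticChar_exists_neg_one hF
  have hν0 : ν ≠ 0 := by
    rintro rfl
    simp at hν
  have h1 : ∑ t : F, hh (cls (upper t)) = ∑ t : F, hh (cls (upper (ν * t))) :=
    (Fintype.sum_equiv (Equiv.mulLeft₀ ν hν0) _ _ fun t => rfl).symm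
  have h2 : ∀ t : F, hh (cls (upper (ν * t))) = - hh (cls (upper t)) := by
    intro t
    have : cls (upper (ν * t)) = cls (dg ν hν0) * cls (upper t) * (cls (dg ν hν0))⁻¹ := by
      rw [← dg_conj ν hν0 t]
      show ProjGenLinGroup.mk _ = _
      rw [map_mul, map_mul, map_inv]
    rw [this, hh_conj]
    have : eta (cls (dg ν hν0)) = -1 := by
      rw [eta_cls, Matrix.det_fin_two]
      simpa [dg] using hν
    rw [this]
    push_cast
    ring
  rw [Finset.sum_congr rfl fun t _ => h2 t, Finset.sum_neg_distrib] at h1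
  linear_combination h1 / 2

/-- the matrix of the Weyl element -/
def ww : GL (Fin 2) F where
  val := !![0, -1; 1, 0]
  inv := !![0, 1; -1, 0]
  val_inv := by ext i j; fin_cases i <;> fin_cases j <;> simp [Matrix.mul_apply]
  inv_val := by ext i j; fin_cases i <;> fin_cases j <;> simp [Matrix.mul_apply]

/-- an element with given entries and nonzero determinant -/
noncomputable def mat (a b c d : F) (h : a * d - b * c ≠ 0) : GL (Fin 2) F :=
  GeneralLinearGroup.mkOfDetNeZero !![a, b; c, d] (by rw [Matrix.det_fin_two]; simpa using h)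

omit [Fintype F] in
lemma mat_val (a b c d : F) (h : a * d - b * c ≠ 0) : (mat a b c d h).1 = !![a, b; c, d] := rfl

lemma eta_mat (a b c d : F) (h : a * d - b * c ≠ 0) :
    eta (cls (mat a b c d h)) = (open Classical in quadraticChar F (a * d - b * c)) := by
  classical
  rw [eta_cls, mat_val, Matrix.det_fin_two]
  rfl

/-- nondegenerate binary quadratic forms represent everything -/
lemma represents (hF : ringChar F ≠ 2) (t ν : F) (ht : t ^ 2 ≠ 4) :
    ∃ α β : F, α ^ 2 + t * α * β + β ^ 2 = ν := by
  have h2 : (2 : F) ≠ 0 := Ring.two_ne_zero hF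
  have h4 : (4 : F) ≠ 0 := by
    have : (4 : F) = 2 * 2 := by norm_num
    rw [this]
    exact mul_ne_zero h2 h2
  have hs : (1 - t ^ 2 / 4 : F) ≠ 0 := by
    intro h
    apply ht
    field_simp at h
    linear_combination -h
  open Polynomial in
  obtain ⟨x, y, hxy⟩ := FiniteField.exists_root_sum_quadratic (R := F)
    (f := X ^ 2) (g := C (1 - t ^ 2 / 4) * X ^ 2 - C ν)
    (by rw [degree_X_pow]; rfl)
    (by
      have : (C (1 - t ^ 2 / 4) * X ^ 2 - C ν : F[X]) =
        C (1 - t ^ 2 / 4) * X ^ 2 + C 0 * X + C (-ν) := by simp [sub_eq_add_neg]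
      rw [this, degree_quadratic hs])
    (by
      have := FiniteField.odd_card_of_char_ne_two hF
      omega)
  refine ⟨x - t * y / 2, y, ?_⟩
  simp at hxy
  field_simp at hxy ⊢
  linear_combination hxy

theorem T_upper_one {Φ : PGL(2, F) → ℂ} (hΦ : Cuspidal F Φ) (hF : ringChar F ≠ 2)
    (hm : open Classical in quadraticChar F (-1) = 1) : T Φ (cls (upper 1)) = 0 := by
  classical
  have h2 : (2 : F) ≠ 0 := Ring.two_ne_zero hF
  have h22 : (2 : F) ≠ -2 := by
    intro h
    apply h2
    have h4 : (2 : F) * 2 = 0 := by linear_combination h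
    rcases mul_eq_zero.1 h4 with h | h <;> exact h
  obtain ⟨ν, hν⟩ := quadraticChar_exists_neg_one hF
  have hs := T_sum hΦ (cls ww)
  have h0 : ∀ t : F, t ≠ 2 → t ≠ -2 → T Φ (cls ww * cls (upper t)) = 0 := by
    intro t ht ht'
    have ht2 : t ^ 2 ≠ 4 := by
      intro h
      have : (t - 2) * (t + 2) = 0 := by linear_combination h
      rcases mul_eq_zero.1 this with h | h
      · exact ht (by linear_combination h)
      · exact ht' (by linear_combination h)
    obtain ⟨α, β, hαβ⟩ := represents hF t ν ht2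
    have hν0 : ν ≠ 0 := by
      rintro rfl
      simp at hν
    have hd : α * (α + β * t) - (-β) * β ≠ 0 := by
      have : α * (α + β * t) - (-β) * β = ν := by linear_combination hαβ
      rw [this]
      exact hν0
    refine T_zero_of_comm Φ (y := cls (mat α (-β) β (α + β * t) hd)) ?_ ?_
    · show ProjGenLinGroup.mk _ * (ProjGenLinGroup.mk _ * ProjGenLinGroup.mk _) =
        (ProjGenLinGroup.mk _ * ProjGenLinGroup.mk _) * ProjGenLinGroup.mk _
      rw [← map_mul, ← map_mul, ← map_mul]
      congr 1
      ext i j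
      simp only [Units.val_mul, mat_val]
      fin_cases i <;> fin_cases j <;>
        simp [ww, upper, Matrix.mul_apply, Fin.sum_univ_two] <;> ring
    · rw [eta_mat]
      have : α * (α + β * t) - (-β) * β = ν := by linear_combination hαβ
      rw [this]
      exact hν
  have hp : T Φ (cls ww * cls (upper 2)) = T Φ (cls (upper 1)) := by
    have hd : (1 : F) * (-1) - 0 * (-1) ≠ 0 := by norm_num
    have e : cls ww * cls (upper (2 : F)) =
        cls (mat 1 0 (-1) (-1) hd) * cls (upper 1) * (cls (mat 1 0 (-1) (-1) hd))⁻¹ := by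
      rw [eq_mul_inv_iff_mul_eq]
      show (ProjGenLinGroup.mk _ * ProjGenLinGroup.mk _) * ProjGenLinGroup.mk _ =
        (ProjGenLinGroup.mk _ * ProjGenLinGroup.mk _)
      rw [← map_mul, ← map_mul, ← map_mul]
      congr 1
      ext i j
      simp only [Units.val_mul, mat_val]
      fin_cases i <;> fin_cases j <;>
        simp [ww, upper, Matrix.mul_apply, Fin.sum_univ_two] <;> ring
    rw [e, T_conj, eta_mat]
    have : (1 : F) * (-1) - 0 * (-1) = -1 := by ring
    rw [this, hm]
    simp
  have hn : T Φ (cls ww * cls (upper (-2))) = T Φ (cls (upper 1)) := by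
    have hd : (1 : F) * 1 - 0 * 1 ≠ 0 := by norm_num
    have e : cls ww * cls (upper (-2 : F)) =
        cls (mat 1 0 1 1 hd) * cls (upper 1) * (cls (mat 1 0 1 1 hd))⁻¹ := by
      rw [eq_mul_inv_iff_mul_eq]
      show (ProjGenLinGroup.mk _ * ProjGenLinGroup.mk _) * ProjGenLinGroup.mk _ =
        (ProjGenLinGroup.mk _ * ProjGenLinGroup.mk _)
      rw [← map_mul, ← map_mul, ← map_mul]
      apply cls_eq_iff.2
      refine ⟨-1, by norm_num, ?_⟩
      ext i j
      simp only [Units.val_mul, mat_val]
      fin_cases i <;> fin_cases j <;>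
        simp [ww, upper, Matrix.mul_apply, Fin.sum_univ_two] <;> ring
    rw [e, T_conj, eta_mat]
    have : (1 : F) * 1 - 0 * 1 = 1 := by ring
    rw [this, map_one]
    simp
  rw [Finset.sum_eq_add (2 : F) (-2) h22 (fun t _ ht => h0 t ht.1 ht.2)
    (fun h => absurd (Finset.mem_univ _) h) (fun h => absurd (Finset.mem_univ _) h), hp, hn] at hs
  linear_combination hs / 2

end Proof

/-- **`S_cusp(Ō) ≠ S_w(Ō)` for the regular unipotent class `O` of `PGL_2` over every finite field `F`
with `q ≡ 1 (mod 4)` elements.** -/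
theorem result (F : Type) [Field F] [Fintype F] (hq : Fintype.card F % 4 = 1) :
    ∃ f ∈ Sw F (cls (upper 1)), f ∉ Scusp F (cls (upper 1)) := by
  classical
  have hm' : IsSquare (-1 : F) := by
    rw [FiniteField.isSquare_neg_one_iff]
    omega
  have hF : ringChar F ≠ 2 := by
    intro h
    have := FiniteField.even_card_iff_char_two.1 h
    omega
  have hm : quadraticChar F (-1) = 1 :=
    (quadraticChar_one_iff_isSquare (neg_ne_zero.2 one_ne_zero)).2 hm'
  have h2 : (2 : F) ≠ 0 := Ring.two_ne_zero hF
  refine ⟨fun z => hh z.1, ?_, ?_⟩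
  · -- `h` is in `S_w`
    rintro U ⟨y, rfl⟩ g hg
    have hinj : Function.Injective fun t : F => y * cls (upper t) * y⁻¹ := by
      intro s t hst
      apply upper_inj
      simpa using hst
    rw [← finsum_comp_equiv (Equiv.ofInjective _ hinj), finsum_eq_sum_of_fintype]
    simp only [Equiv.ofInjective_apply]
    -- pass to the standard Borel subgroup
    have hQ : ∀ t : F, Q (y⁻¹ * g * y * cls (upper t)) := by
      intro t
      have h := Q_conj y⁻¹ (Q_of_mem (hg _ ⟨t, rfl⟩))
      have e : y⁻¹ * (g * (y * cls (upper t) * y⁻¹)) * y⁻¹⁻¹ =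
        y⁻¹ * g * y * cls (upper t) := by group
      rwa [e] at h
    have hval : ∀ t : F, hh (g * (y * cls (upper t) * y⁻¹)) =
        eta y * hh (y⁻¹ * g * y * cls (upper t)) := by
      intro t
      rw [← hh_conj]
      congr 1
      group
    rw [Finset.sum_congr rfl fun t _ => hval t, ← Finset.mul_sum]
    generalize y⁻¹ * g * y = g' at hQ
    induction g' using Matrix.ProjGenLinGroup.induction_on with | mk A =>
    have hA : ∀ t : F, (A.1 0 0 + (t * A.1 1 0 + A.1 1 1)) ^ 2 =
        4 * (A.1 0 0 * A.1 1 1 - A.1 0 1 * A.1 1 0) := by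
      intro t
      have h := hQ t (A * upper t) (by
        show ProjGenLinGroup.mk _ = _
        rw [map_mul])
      rw [mul_upper_val, Matrix.trace_fin_two, Matrix.det_fin_two] at h
      simp at h
      linear_combination h
    have a0 := hA 0
    have a1 := hA 1
    have am := hA (-1)
    have hdet : A.1 0 0 * A.1 1 1 - A.1 0 1 * A.1 1 0 ≠ 0 := by
      have := (GeneralLinearGroup.det A).ne_zero
      rw [← Matrix.det_fin_two]
      simpa using this
    have e10 : A.1 1 0 = 0 := by
      have : 2 * A.1 1 0 ^ 2 = 0 := by linear_combination a1 + am - 2 * a0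
      rcases mul_eq_zero.1 this with h | h
      · exact absurd h h2
      · exact pow_eq_zero_iff (two_ne_zero) |>.1 h
    have e11 : A.1 1 1 = A.1 0 0 := by
      rw [e10] at a0
      have : (A.1 0 0 - A.1 1 1) ^ 2 = 0 := by linear_combination a0
      have := pow_eq_zero_iff (two_ne_zero) |>.1 this
      linear_combination -this
    have e00 : A.1 0 0 ≠ 0 := by
      intro h0
      apply hdet
      rw [h0, e10]
      ring
    have hcls : cls A = cls (upper (A.1 0 1 / A.1 0 0)) := by
      symm
      apply cls_eq_iff.2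
      refine ⟨A.1 0 0, e00, ?_⟩
      ext i j
      fin_cases i <;> fin_cases j <;> simp [upper, e10, e11]
      field_simp
    have hsum : ∑ t : F, hh (cls A * cls (upper t)) = 0 := by
      rw [hcls]
      have e : ∀ t : F, cls (upper (A.1 0 1 / A.1 0 0)) * cls (upper t) =
          cls (upper (A.1 0 1 / A.1 0 0 + t)) := by
        intro t
        rw [← upper_mul]
        show _ = ProjGenLinGroup.mk _
        rw [map_mul]
      rw [Finset.sum_congr rfl fun t _ => congrArg hh (e t), ← hh_sum_zero hF]
      exact Fintype.sum_equiv (Equiv.addLeft _) _ _ fun t => rfl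
    rw [show ∑ t : F, hh (ProjGenLinGroup.mk A * cls (upper t)) = 0 from hsum, mul_zero]
  · -- `h` is not the restriction of a cuspidal function
    rintro ⟨Φ, hΦ, hres⟩
    have h1 := T_upper_one hΦ hF hm
    have h3 : ∀ x : PGL(2, F), Φ (x * cls (upper 1) * x⁻¹) =
        eta x * hh (cls (upper (1 : F))) := by
      intro x
      rw [← hh_conj]
      exact (hres ⟨_, conj_mem x⟩).symm
    unfold T at h1
    have h4 : ∀ x : PGL(2, F), (eta x : ℂ) * Φ (x * cls (upper 1) * x⁻¹) =
        hh (cls (upper (1 : F))) := by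
      intro x
      rw [h3 x, ← mul_assoc]
      have h : ((eta x : ℤ) : ℂ) * (eta x : ℤ) = 1 := by exact_mod_cast eta_sq x
      rw [h, one_mul]
    rw [Finset.sum_congr rfl fun x _ => h4 x, Finset.sum_const, nsmul_eq_mul] at h1
    rcases mul_eq_zero.1 h1 with h | h
    · have : (0 : ℕ) < Finset.univ.card (α := PGL(2, F)) := Finset.card_pos.2 ⟨1, Finset.mem_univ _⟩
      exact this.ne' (by exact_mod_cast h)
    · exact hh_one_ne h

end Pool.Agent.Results.MP_21a573_al.PGL2RegularUnipotent
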